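import Pool.Agent.H826Z.Iid.Spec1

/-! The union of `K` separated intervals is an admissible domain; auxiliary lemmas. -/

set_option autoImplicit false

namespace Pool.Agent.H367Z.Iid

open Pool.Agent.Helper579.Iid Pool.Agent.H826Z.Iid MeasureTheory Set Filter
open scoped ENNReal Topology

lemma mem_DK {K : ℕ} (hK : 1 ≤ K) {x : ℝ} :
    x ∈ DK K ↔ ∃ i : ℕ, i < K ∧ 2 * (i : ℝ) < x * K ∧ x * K < 2 * (i : ℝ) + 1 := by
  have hK0 : (0 : ℝ) < K := by exact_mod_cast hK
  unfold DK
  simp only [mem_iUnion, Finset.mem_range, mem_Ioo, exists_prop, div_lt_iff₀ hK0,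
    lt_div_iff₀ hK0]

theorem adm : S_ADM := by
  intro K hK
  have hK0 : (0 : ℝ) < K := by exact_mod_cast hK
  have hK1 : (1 : ℝ) ≤ K := by exact_mod_cast hK
  have ho : IsOpen (DK K) := isOpen_biUnion fun _ _ => isOpen_Ioo
  refine ⟨ho, ?_, le_rfl, ho.preimage (continuous_apply 0), ⟨fun _ => 1 / (2 * K), ?_⟩, ?_, ?_⟩
  · unfold DK
    rw [measure_biUnion_finset _ fun _ _ => measurableSet_Ioo]
    · have : ∀ i ∈ Finset.range K, volume (Ioo (2 * (i : ℝ) / K) ((2 * (i : ℝ) + 1) / K)) =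
          ENNReal.ofReal (1 / K) := by
        intro i _
        rw [Real.volume_Ioo]
        congr 1
        field_simp
        ring
      rw [Finset.sum_congr rfl this, Finset.sum_const, Finset.card_range, nsmul_eq_mul,
        ← ENNReal.ofReal_natCast, ← ENNReal.ofReal_mul hK0.le, mul_one_div_cancel hK0.ne',
        ENNReal.ofReal_one]
    · intro i _ j _ hij
      rw [Function.onFun, disjoint_left]
      intro x hi hj
      rw [mem_Ioo, div_lt_iff₀ hK0, lt_div_iff₀ hK0] at hi hj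
      have h1 : (2 * i : ℝ) < 2 * j + 1 := hi.1.trans hj.2
      have h2 : (2 * j : ℝ) < 2 * i + 1 := hj.1.trans hi.2
      have h3 : 2 * i < 2 * j + 1 := by exact_mod_cast h1
      have h4 : 2 * j < 2 * i + 1 := by exact_mod_cast h2
      omega
  · show (1 / (2 * K) : ℝ) ∈ DK K
    rw [mem_DK hK]
    have : (1 / (2 * K) : ℝ) * K = 1 / 2 := by field_simp
    refine ⟨0, hK, ?_, ?_⟩ <;> rw [this] <;> norm_num
  · refine (Metric.isBounded_closedBall (x := (0 : Fin 1 → ℝ)) (r := 2)).subset fun x hx => ?_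
    obtain ⟨i, hi, h1, h2⟩ := (mem_DK hK).1 hx
    have hi' : (i : ℝ) + 1 ≤ K := by exact_mod_cast hi
    have hi0 : (0 : ℝ) ≤ i := Nat.cast_nonneg i
    rw [mem_closedBall_zero_iff, pi_norm_le_iff_of_nonneg (by norm_num)]
    intro j
    rw [Subsingleton.elim j 0, Real.norm_eq_abs, abs_le]
    constructor <;> nlinarith
  · have hc : 0 < Real.cos 1 := Real.cos_one_pos
    refine ⟨1, 1 / (4 * K), one_pos, by linarith [Real.pi_gt_three], by positivity, ?_⟩
    intro x hx
    obtain ⟨i, hi, h1, h2⟩ := (mem_DK hK).1 hx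
    have ht : ∀ t ∈ Icc (0 : ℝ) (1 / (4 * K)), 0 ≤ t * K ∧ t * K ≤ 1 / 4 := by
      intro t ht
      refine ⟨mul_nonneg ht.1 hK0.le, ?_⟩
      have := mul_le_mul_of_nonneg_right ht.2 hK0.le
      rwa [show (1 / (4 * K) : ℝ) * K = 1 / 4 by field_simp] at this
    rcases le_total (x 0 * K) (2 * i + 1 / 2) with h | h
    · refine ⟨fun _ => 1, by simp, fun y hy1 hy2 t htt => ?_⟩
      simp only [Fin.sum_univ_one, mul_one] at hy1 hy2
      have hy : y 0 = 1 := by nlinarith
      show x 0 + t * y 0 ∈ DK K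
      rw [mem_DK hK, hy]
      obtain ⟨h3, h4⟩ := ht t htt
      exact ⟨i, hi, by linarith, by linarith⟩
    · refine ⟨fun _ => -1, by simp, fun y hy1 hy2 t htt => ?_⟩
      simp only [Fin.sum_univ_one, mul_neg, mul_one] at hy1 hy2
      have hy : y 0 = -1 := by nlinarith
      show x 0 + t * y 0 ∈ DK K
      rw [mem_DK hK, hy]
      obtain ⟨h3, h4⟩ := ht t htt
      exact ⟨i, hi, by linarith, by linarith⟩

lemma upperInt_add_le {Ω : Type} [MeasurableSpace Ω] (μ : Measure Ω) (g₁ g₂ : Ω → ℝ≥0∞) :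
    upperInt μ (fun ω => g₁ ω + g₂ ω) ≤ upperInt μ g₁ + upperInt μ g₂ := by
  rw [← tsub_le_iff_right]
  conv_rhs => unfold upperInt
  refine le_iInf fun h₁ => le_iInf fun m₁ => le_iInf fun b₁ => ?_
  rw [tsub_le_iff_right, add_comm, ← tsub_le_iff_right]
  conv_rhs => unfold upperInt
  refine le_iInf fun h₂ => le_iInf fun m₂ => le_iInf fun b₂ => ?_
  rw [tsub_le_iff_right, add_comm, ← lintegral_add_left m₁]
  exact iInf_le_of_le (fun ω => h₁ ω + h₂ ω) (iInf_le_of_le (m₁.add m₂)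
    (iInf_le_of_le (fun ω => add_le_add (b₁ ω) (b₂ ω)) le_rfl))

lemma upperInt_zero_le {Ω : Type} [MeasurableSpace Ω] (μ : Measure Ω) :
    upperInt μ (fun _ => 0) ≤ 0 :=
  iInf_le_of_le (fun _ => 0) (iInf_le_of_le measurable_const
    (iInf_le_of_le (fun _ => le_rfl) (by simp)))

lemma upperInt_sum_le {Ω ι : Type} [MeasurableSpace Ω] (μ : Measure Ω) (s : Finset ι)
    (g : ι → Ω → ℝ≥0∞) :
    upperInt μ (fun ω => ∑ i ∈ s, g i ω) ≤ ∑ i ∈ s, upperInt μ (g i) := by
  classical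
  induction s using Finset.induction_on with
  | empty => simpa using upperInt_zero_le μ
  | insert a s ha ih =>
    simp only [Finset.sum_insert ha]
    exact (upperInt_add_le μ _ _).trans (add_le_add le_rfl ih)

lemma le_sum_upperInt {Ω ι : Type} [MeasurableSpace Ω] (μ : Measure Ω) (s : Finset ι)
    (g : ι → Ω → ℝ≥0∞) {G : Set Ω} (hG : MeasurableSet G) (c : ℝ≥0∞)
    (h : ∀ ω ∈ G, c ≤ ∑ i ∈ s, g i ω) : c * μ G ≤ ∑ i ∈ s, upperInt μ (g i) := by
  have h1 := le_upperInt_add μ (fun ω => ∑ i ∈ s, g i ω) (fun _ => 0) hG c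
    fun ω hω => by simpa using h ω hω
  refine h1.trans ?_
  refine (add_le_add (upperInt_sum_le μ s g) (upperInt_zero_le μ)).trans ?_
  rw [add_zero]

/-- second moment bound for a union of negatively correlated events -/
lemma second_moment {Ω : Type} [MeasurableSpace Ω] (ν : Measure Ω) [IsProbabilityMeasure ν]
    {K : ℕ} (E : Fin K → Set Ω) (hE : ∀ i, MeasurableSet (E i)) {q : ℝ} (hq : 0 ≤ q)
    (h1 : ∀ i, ν.real (E i) = q) (h2 : ∀ i j, i ≠ j → ν.real (E i ∩ E j) ≤ q ^ 2) :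
    K * q / (1 + K * q) ≤ ν.real (⋃ i, E i) := by
  classical
  set x : ℝ := K * q with hx
  have hx0 : 0 ≤ x := by positivity
  set l : ℝ := 1 + x with hl
  have hl0 : 0 < l := by linarith
  have hU : MeasurableSet (⋃ i, E i) := MeasurableSet.iUnion hE
  have hpt : ∀ ω, 2 * l * ∑ i, (E i).indicator (fun _ => (1 : ℝ)) ω ≤
      l ^ 2 * (⋃ i, E i).indicator (fun _ => (1 : ℝ)) ω +
        ∑ i, ∑ j, (E i ∩ E j).indicator (fun _ => (1 : ℝ)) ω := by
    intro ω
    have e : ∑ i, ∑ j, (E i ∩ E j).indicator (fun _ => (1 : ℝ)) ω =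
        (∑ i, (E i).indicator (fun _ => (1 : ℝ)) ω) ^ 2 := by
      rw [sq, Finset.sum_mul_sum]
      refine Finset.sum_congr rfl fun i _ => Finset.sum_congr rfl fun j _ => ?_
      by_cases hi : ω ∈ E i <;> by_cases hj : ω ∈ E j <;> simp [indicator, hi, hj]
    rw [e]
    by_cases hω : ω ∈ ⋃ i, E i
    · rw [indicator_of_mem hω]
      nlinarith [sq_nonneg (l - ∑ i, (E i).indicator (fun _ => (1 : ℝ)) ω)]
    · rw [indicator_of_notMem hω]
      have : ∑ i, (E i).indicator (fun _ => (1 : ℝ)) ω = 0 :=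
        Finset.sum_eq_zero fun i _ => indicator_of_notMem (fun h => hω (mem_iUnion.2 ⟨i, h⟩)) _
      rw [this]
      simp
  have hint : ∀ S : Set Ω, MeasurableSet S → Integrable (S.indicator fun _ => (1 : ℝ)) ν :=
    fun S hS => (integrable_const 1).indicator hS
  have hval : ∀ S : Set Ω, MeasurableSet S →
      ∫ ω, S.indicator (fun _ => (1 : ℝ)) ω ∂ν = ν.real S := by
    intro S hS
    rw [integral_indicator_const _ hS, smul_eq_mul, mul_one]
  have i1 : Integrable (fun ω => ∑ i, (E i).indicator (fun _ => (1 : ℝ)) ω) ν :=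
    integrable_finsetSum _ fun i _ => hint _ (hE i)
  have i2 : ∀ i, Integrable (fun ω => ∑ j, (E i ∩ E j).indicator (fun _ => (1 : ℝ)) ω) ν :=
    fun i => integrable_finsetSum _ fun j _ => hint _ ((hE i).inter (hE j))
  have i3 : Integrable (fun ω => ∑ i, ∑ j, (E i ∩ E j).indicator (fun _ => (1 : ℝ)) ω) ν :=
    integrable_finsetSum _ fun i _ => i2 i
  have h3 := integral_mono (i1.const_mul (2 * l)) (((hint _ hU).const_mul (l ^ 2)).add i3) hpt
  simp only [Pi.add_apply] at h3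
  rw [integral_add ((hint _ hU).const_mul (l ^ 2)) i3, integral_const_mul, integral_const_mul,
    integral_finsetSum _ fun i _ => hint _ (hE i), integral_finsetSum _ fun i _ => i2 i,
    hval _ hU] at h3
  have e1 : ∑ i, ∫ ω, (E i).indicator (fun _ => (1 : ℝ)) ω ∂ν = x := by
    rw [Finset.sum_congr rfl fun i _ => (hval _ (hE i)).trans (h1 i)]
    simp [hx]
  have e2 : ∑ i, ∫ ω, ∑ j, (E i ∩ E j).indicator (fun _ => (1 : ℝ)) ω ∂ν ≤ x ^ 2 + x := by
    have : ∀ i, ∫ ω, ∑ j, (E i ∩ E j).indicator (fun _ => (1 : ℝ)) ω ∂ν ≤ K * q ^ 2 + q := by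
      intro i
      rw [integral_finsetSum _ fun j _ => hint _ ((hE i).inter (hE j))]
      have h4 : ∀ j, ∫ ω, (E i ∩ E j).indicator (fun _ => (1 : ℝ)) ω ∂ν ≤
          q ^ 2 + if i = j then q else 0 := by
        intro j
        rw [hval _ ((hE i).inter (hE j))]
        by_cases hij : i = j
        · subst hij
          rw [inter_self, h1, if_pos rfl]
          linarith [sq_nonneg q]
        · rw [if_neg hij, add_zero]
          exact h2 i j hij
      refine (Finset.sum_le_sum fun j _ => h4 j).trans (le_of_eq ?_)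
      rw [Finset.sum_add_distrib]
      simp
    refine (Finset.sum_le_sum fun i _ => this i).trans (le_of_eq ?_)
    simp only [Finset.sum_const, Finset.card_univ, Fintype.card_fin, nsmul_eq_mul, hx]
    ring
  rw [e1] at h3
  rw [div_le_iff₀ hl0]
  have h5 : l * x ≤ l * (ν.real (⋃ i, E i) * l) := by nlinarith
  exact le_of_mul_le_mul_left h5 hl0

end Pool.Agent.H367Z.Iid
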