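import Pool.Agent.H367Z.Iid.Adm

/-! The lower bound on the union of many separated intervals. -/

set_option autoImplicit false

namespace Pool.Agent.H367Z.Iid

open Pool.Agent.Helper579.Iid Pool.Agent.H826Z.Iid MeasureTheory Set Filter
open scoped ENNReal Topology

/-- tent of height `τ` around `a` -/
noncomputable def tent (a τ x : ℝ) : ℝ := max 0 (τ - |x - a|)

lemma tent_zero {a τ x : ℝ} (h : x ∉ Ioo (a - τ) (a + τ)) : tent a τ x = 0 := by
  rw [mem_Ioo, not_and_or, not_lt, not_lt] at h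
  unfold tent
  apply max_eq_left
  rcases h with h | h
  · linarith [neg_abs_le (x - a)]
  · linarith [le_abs_self (x - a)]

lemma abs_tent_le {a τ : ℝ} (hτ : 0 ≤ τ) (x : ℝ) : |tent a τ x| ≤ τ := by
  unfold tent
  rw [abs_of_nonneg (le_max_left _ _)]
  exact max_le hτ (by linarith [abs_nonneg (x - a)])

lemma tent_inc {a τ x y : ℝ} (hxy : x ≤ y) :
    ENNReal.ofReal |tent a τ y - tent a τ x| ≤ volume (Ioo (a - τ) (a + τ) ∩ Ioc x y) := by
  have hsub : Ioo (max x (a - τ)) (min y (a + τ)) ⊆ Ioo (a - τ) (a + τ) ∩ Ioc x y := by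
    intro z hz
    rw [mem_Ioo, max_lt_iff, lt_min_iff] at hz
    exact ⟨⟨hz.1.2, hz.2.2⟩, hz.1.1, hz.2.1.le⟩
  refine le_trans ?_ (measure_mono hsub)
  rw [Real.volume_Ioo, ENNReal.ofReal_le_ofReal_iff', abs_le, abs_le]
  unfold tent
  rcases abs_cases (x - a) with ⟨h1, h1'⟩ | ⟨h1, h1'⟩ <;>
    rcases abs_cases (y - a) with ⟨h2, h2'⟩ | ⟨h2, h2'⟩ <;> rw [h1, h2] <;>
    simp only [max_def, min_def] <;> split_ifs <;>
    first
      | (left; constructor <;> linarith)
      | (right; constructor <;> linarith)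

/-- centre of the `i`-th tent -/
noncomputable def ctr {K : ℕ} (i : Fin K) : ℝ := 2 * ((i : ℕ) : ℝ) / K

/-- support of the `i`-th tent -/
def sup {K : ℕ} (τ : ℝ) (i : Fin K) : Set ℝ := Ioo (ctr i - τ) (ctr i + τ)

lemma ctr_mul {K : ℕ} (hK : 1 ≤ K) (i : Fin K) : ctr i * K = 2 * ((i : ℕ) : ℝ) := by
  have hK0 : (K : ℝ) ≠ 0 := by positivity
  unfold ctr
  field_simp

lemma sup_mul {K : ℕ} (hK : 1 ≤ K) {τ : ℝ} (hτ : τ * K ≤ 1) {i : Fin K} {x : ℝ}
    (hx : x ∈ sup τ i) : 2 * ((i : ℕ) : ℝ) - 1 < x * K ∧ x * K < 2 * ((i : ℕ) : ℝ) + 1 := by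
  have hK0 : (0 : ℝ) < K := by exact_mod_cast hK
  have h1 := mul_lt_mul_of_pos_right hx.1 hK0
  have h2 := mul_lt_mul_of_pos_right hx.2 hK0
  rw [sub_mul, ctr_mul hK] at h1
  rw [add_mul, ctr_mul hK] at h2
  constructor <;> linarith

lemma sup_disj {K : ℕ} (hK : 1 ≤ K) {τ : ℝ} (hτ : τ * K ≤ 1) {i j : Fin K} (hij : i ≠ j) :
    Disjoint (sup τ i) (sup τ j) := by
  rw [disjoint_left]
  intro x hi hj
  obtain ⟨h1, h2⟩ := sup_mul hK hτ hi
  obtain ⟨h3, h4⟩ := sup_mul hK hτ hj
  have h5 : ((i : ℕ) : ℝ) < (j : ℕ) + 1 := by linarith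
  have h6 : ((j : ℕ) : ℝ) < (i : ℕ) + 1 := by linarith
  have h7 : (i : ℕ) < j + 1 := by exact_mod_cast h5
  have h8 : (j : ℕ) < i + 1 := by exact_mod_cast h6
  exact hij (Fin.ext (by omega))

lemma sup_inter {K : ℕ} (hK : 1 ≤ K) {τ : ℝ} (hτ : τ * K ≤ 1) (i : Fin K) :
    sup τ i ∩ DK K = Ioo (ctr i) (ctr i + τ) := by
  have hK0 : (0 : ℝ) < K := by exact_mod_cast hK
  have hc := ctr_mul hK i
  ext x
  constructor
  · rintro ⟨hx, hD⟩
    obtain ⟨j, -, h3, h4⟩ := (mem_DK hK).1 hD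
    obtain ⟨h1, h2⟩ := sup_mul hK hτ hx
    have h5 : ((i : ℕ) : ℝ) < j + 1 := by linarith
    have h7 : (i : ℕ) < j + 1 := by exact_mod_cast h5
    have h8 : ((i : ℕ) : ℝ) ≤ j := by exact_mod_cast Nat.lt_succ_iff.1 h7
    refine ⟨lt_of_mul_lt_mul_right ?_ hK0.le, hx.2⟩
    linarith
  · intro hx
    have hx' : x ∈ sup τ i := ⟨by linarith [hx.1, hx.2], hx.2⟩
    refine ⟨hx', (mem_DK hK).2 ⟨i, i.2, ?_, (sup_mul hK hτ hx').2⟩⟩
    rw [← hc]
    exact mul_lt_mul_of_pos_right hx.1 hK0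

/-- sign of a bit -/
noncomputable def sg (b : Bool) : ℝ := if b then 1 else -1

lemma abs_sg (b : Bool) : |sg b| = 1 := by cases b <;> simp [sg]

lemma abs_sg_sub (b : Bool) : |sg b - sg (!b)| = 2 := by
  cases b <;> simp [sg] <;> norm_num

/-- the fooling functions -/
noncomputable def fool {K : ℕ} (τ L : ℝ) (s : Fin K → Bool) (x : ℝ) : ℝ :=
  ∑ i, sg (s i) * L * tent (ctr i) τ x

lemma fool_ball {K : ℕ} (hK : 1 ≤ K) (hA : IsOpen (DK K)) {τ L : ℝ} (hτ0 : 0 ≤ τ)
    (hτ : τ * K ≤ 1) (hL : 0 ≤ L) {P : ℕ} (hP : 0 < P) (hn : 4 * K * τ * L ^ P ≤ 1)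
    (s : Fin K → Bool) : fool τ L s ∈ ball (DK K) P := by
  have hK0 : (0 : ℝ) < K := by exact_mod_cast hK
  have hK1 : (1 : ℝ) ≤ K := by exact_mod_cast hK
  have hτ1 : τ ≤ 1 := by nlinarith
  set U : Set ℝ := ⋃ i : Fin K, sup τ i with hU
  have hUm : MeasurableSet U := MeasurableSet.iUnion fun _ => measurableSet_Ioo
  have hUv : volume U ≤ ENNReal.ofReal (K * (2 * τ)) := by
    refine (measure_iUnion_fintype_le _ _).trans (le_of_eq ?_)
    have : ∀ i : Fin K, volume (sup τ i) = ENNReal.ofReal (2 * τ) := by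
      intro i
      unfold sup
      rw [Real.volume_Ioo]
      congr 1
      ring
    rw [Finset.sum_congr rfl fun i _ => this i, Finset.sum_const, Finset.card_univ,
      Fintype.card_fin, nsmul_eq_mul, ENNReal.ofReal_mul hK0.le, ENNReal.ofReal_natCast]
  set G : ℝ → ℝ≥0∞ := U.indicator fun _ => ENNReal.ofReal L with hG
  have hGP : ∫⁻ x in DK K, G x ^ P ≤ ENNReal.ofReal (L ^ P * (K * (2 * τ))) := by
    have e : (fun x => G x ^ P) = U.indicator fun _ => ENNReal.ofReal (L ^ P) := by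
      funext x
      by_cases hx : x ∈ U
      · rw [hG, indicator_of_mem hx, indicator_of_mem hx, ENNReal.ofReal_pow hL]
      · rw [hG, indicator_of_notMem hx, indicator_of_notMem hx, zero_pow hP.ne']
    rw [e, lintegral_indicator_const hUm, ENNReal.ofReal_mul (by positivity)]
    gcongr
    exact (Measure.restrict_apply_le _ _).trans hUv
  have hfG : ∀ x, ‖fool τ L s x‖ₑ ≤ G x := by
    intro x
    by_cases hx : x ∈ U
    · obtain ⟨i, hi⟩ := mem_iUnion.1 hx
      rw [hG, indicator_of_mem hx, Real.enorm_eq_ofReal_abs]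
      apply ENNReal.ofReal_le_ofReal
      unfold fool
      rw [Finset.sum_eq_single i]
      · rw [abs_mul, abs_mul, abs_sg, one_mul, abs_of_nonneg hL]
        exact mul_le_of_le_one_right hL ((abs_tent_le hτ0 x).trans hτ1)
      · intro j _ hj
        rw [tent_zero (disjoint_left.1 (sup_disj hK hτ hj.symm) hi), mul_zero]
      · simp
    · have : fool τ L s x = 0 := Finset.sum_eq_zero fun i _ => by
        rw [tent_zero fun h => hx (mem_iUnion.2 ⟨i, h⟩), mul_zero]
      rw [this]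
      simp
  refine ball_in hA (A := -1) (B := 3) (by norm_num) ?_ (G := G)
    (measurable_const.indicator hUm) ?_ ?_ hP ?_
  · intro x hx
    obtain ⟨i, hi, h1, h2⟩ := (mem_DK hK).1 hx
    have hi' : (i : ℝ) + 1 ≤ K := by exact_mod_cast hi
    have hi0 : (0 : ℝ) ≤ i := Nat.cast_nonneg i
    constructor <;> nlinarith
  · intro a _ b _ hab
    rw [hG, lintegral_indicator_const hUm, Measure.restrict_apply hUm, hU, iUnion_inter,
      measure_iUnion (fun i j hij => (sup_disj hK hτ hij).mono inter_subset_left inter_subset_left)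
        fun i => measurableSet_Ioo.inter measurableSet_Ioc, tsum_fintype, Finset.mul_sum]
    unfold fool
    rw [← Finset.sum_sub_distrib]
    refine (ENNReal.ofReal_le_ofReal (Finset.abs_sum_le_sum_abs _ _)).trans ?_
    rw [ENNReal.ofReal_sum_of_nonneg fun _ _ => abs_nonneg _]
    refine Finset.sum_le_sum fun i _ => ?_
    rw [← mul_sub, abs_mul, abs_mul, abs_sg, one_mul, abs_of_nonneg hL, ENNReal.ofReal_mul hL]
    gcongr
    exact tent_inc hab
  · rw [hG, lintegral_indicator_const hUm]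
    exact ENNReal.mul_ne_top ENNReal.ofReal_ne_top (measure_ne_top _ _)
  · have h1 : ∫⁻ x in DK K, ‖fool τ L s x‖ₑ ^ P ≤ ∫⁻ x in DK K, G x ^ P :=
      lintegral_mono fun x => by
        have := hfG x
        simp only
        gcongr
    refine (add_le_add (h1.trans hGP) hGP).trans ?_
    rw [← ENNReal.ofReal_add (by positivity) (by positivity), ENNReal.ofReal_le_one]
    linarith

/-- two functions with the same data cannot both be approximated well -/
lemma fool_pair {K n : ℕ} (hK : 1 ≤ K) {τ L : ℝ} (hτ0 : 0 < τ)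
    (hτ : τ * K ≤ 1) (hL : 0 ≤ L) (A : M1 (DK K) n) (ω : A.Ω) (i : Fin K)
    (hi : ∀ j, A.X ω j ∉ sup τ i) (s : Fin K → Bool) :
    ENNReal.ofReal (2 * (L * τ * (99 / 100))) ≤
      A.err (fool τ L s) ω + A.err (fool τ L (Function.update s i (!s i))) ω := by
  set s' := Function.update s i (!s i) with hs'
  have hdiff : ∀ x, fool τ L s x - fool τ L s' x =
      (sg (s i) - sg (!s i)) * L * tent (ctr i) τ x := by
    intro x
    unfold fool
    rw [← Finset.sum_sub_distrib, Finset.sum_eq_single i]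
    · rw [hs', Function.update_self]
      ring
    · intro j _ hj
      rw [hs', Function.update_of_ne hj, sub_self]
    · simp
  have hdata : (fun j => fool τ L s' (A.X ω j)) = fun j => fool τ L s (A.X ω j) := by
    funext j
    have := hdiff (A.X ω j)
    rw [tent_zero (hi j), mul_zero] at this
    linarith
  unfold M1.err
  rw [hdata, eLpNorm_exponent_top, eLpNorm_exponent_top]
  set u := A.φ ω fun j => fool τ L s (A.X ω j) with hu
  have hsub : Ioo (ctr i) (ctr i + τ / 100) ⊆ DK K := by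
    intro x hx
    have : x ∈ sup τ i ∩ DK K := by
      rw [sup_inter hK hτ]
      exact ⟨hx.1, by linarith [hx.2]⟩
    exact this.2
  have hpos : (volume.restrict (DK K)) (Ioo (ctr i) (ctr i + τ / 100)) ≠ 0 := by
    rw [Measure.restrict_apply measurableSet_Ioo, inter_eq_left.2 hsub, Real.volume_Ioo]
    simp only [ne_eq, ENNReal.ofReal_eq_zero, not_le]
    linarith
  obtain ⟨x, hx, h1, h2⟩ := Measure.exists_mem_of_measure_ne_zero_of_ae hpos
    (ae_restrict_of_ae ((ae_le_eLpNormEssSup (f := fun t => fool τ L s t - u t)).and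
      (ae_le_eLpNormEssSup (f := fun t => fool τ L s' t - u t))))
  refine le_trans ?_ (add_le_add h1 h2)
  rw [Real.enorm_eq_ofReal_abs, Real.enorm_eq_ofReal_abs,
    ← ENNReal.ofReal_add (abs_nonneg _) (abs_nonneg _)]
  apply ENNReal.ofReal_le_ofReal
  have h3 : |fool τ L s x - fool τ L s' x| ≤
      |fool τ L s x - u x| + |fool τ L s' x - u x| := by
    rw [abs_sub_comm (fool τ L s' x)]
    exact abs_sub_le _ _ _
  refine le_trans ?_ h3
  rw [hdiff, abs_mul, abs_mul, abs_sg_sub, abs_of_nonneg hL]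
  have h4 : τ * (99 / 100) ≤ |tent (ctr i) τ x| := by
    refine le_trans ?_ (le_abs_self _)
    refine le_trans ?_ (le_max_right _ _)
    rw [abs_of_pos (by linarith [hx.1])]
    linarith [hx.2]
  nlinarith [mul_le_mul_of_nonneg_left h4 hL]

lemma fool_sum {K n : ℕ} (hK : 1 ≤ K) {τ L : ℝ} (hτ0 : 0 < τ)
    (hτ : τ * K ≤ 1) (hL : 0 ≤ L) (A : M1 (DK K) n) (ω : A.Ω) (i : Fin K)
    (hi : ∀ j, A.X ω j ∉ sup τ i) :
    (Fintype.card (Fin K → Bool) : ℝ≥0∞) * ENNReal.ofReal (L * τ * (99 / 100)) ≤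
      ∑ s : Fin K → Bool, A.err (fool τ L s) ω := by
  have hinv : Function.Involutive fun s : Fin K → Bool => Function.update s i (!s i) := by
    intro s
    simp
  have h1 := Finset.sum_le_sum fun s (_ : s ∈ (Finset.univ : Finset (Fin K → Bool))) =>
    fool_pair hK hτ0 hτ hL A ω i hi s
  rw [Finset.sum_add_distrib, hinv.bijective.sum_comp fun s => A.err (fool τ L s) ω,
    ← two_mul, Finset.sum_const, Finset.card_univ, nsmul_eq_mul,
    ENNReal.ofReal_mul (by norm_num), ENNReal.ofReal_ofNat, mul_left_comm] at h1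
  exact (ENNReal.mul_le_mul_iff_right (by norm_num) (by norm_num)).mp h1

lemma prob_bound {K n : ℕ} (hK : 1 ≤ K) (hv : volume (DK K) = 1) {τ : ℝ}
    (hτ0 : 0 < τ) (hτ : τ * K ≤ 1) (hτ2 : τ ≤ 1 / 2) (hx : 10 ≤ K * (1 - τ) ^ n) :
    ENNReal.ofReal (10 / 11) ≤ (Measure.pi fun _ : Fin n => volume.restrict (DK K))
      (⋃ i : Fin K, univ.pi fun _ => (sup τ i)ᶜ) := by
  set μ : Measure ℝ := volume.restrict (DK K) with hμ
  have : IsProbabilityMeasure μ := ⟨by simp [hμ, hv]⟩
  have hm : ∀ i : Fin K, MeasurableSet (sup τ i) := fun _ => measurableSet_Ioo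
  have h0 : ∀ i : Fin K, μ.real (sup τ i) = τ := by
    intro i
    rw [Measure.real, hμ, Measure.restrict_apply (hm i), sup_inter hK hτ, Real.volume_Ioo,
      add_sub_cancel_left, ENNReal.toReal_ofReal hτ0.le]
  have hpi : ∀ S : Set ℝ, (Measure.pi fun _ : Fin n => μ).real (univ.pi fun _ => S) =
      μ.real S ^ n := by
    intro S
    rw [Measure.real, Measure.pi_pi]
    simp [Measure.real]
  have hq : 0 ≤ (1 - τ) ^ n := pow_nonneg (by linarith) _
  have h := second_moment (Measure.pi fun _ : Fin n => μ)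
    (fun i : Fin K => univ.pi fun _ => (sup τ i)ᶜ)
    (fun i => MeasurableSet.univ_pi fun _ => (hm i).compl) hq
    (fun i => by rw [hpi, probReal_compl_eq_one_sub (hm i), h0])
    (fun i j hij => by
      rw [← pi_inter_distrib, ← compl_union, hpi, probReal_compl_eq_one_sub ((hm i).union (hm j)),
        measureReal_union (sup_disj hK hτ hij) (hm j), h0, h0, ← pow_mul, mul_comm n 2, pow_mul]
      exact pow_le_pow_left₀ (by linarith) (by nlinarith) _)
  rw [ENNReal.ofReal_le_iff_le_toReal (measure_ne_top _ _)]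
  refine le_trans ?_ h
  rw [le_div_iff₀ (by linarith)]
  linarith

lemma error_bound {K n : ℕ} (hK : 1 ≤ K) (hA : IsOpen (DK K)) (hv : volume (DK K) = 1)
    {τ L : ℝ} (hτ0 : 0 < τ) (hτ : τ * K ≤ 1) (hτ2 : τ ≤ 1 / 2) (hx : 10 ≤ K * (1 - τ) ^ n)
    (hL : 0 ≤ L) {P : ℕ} (hP : 0 < P) (hn : 4 * K * τ * L ^ P ≤ 1) :
    ENNReal.ofReal (L * τ * (9 / 10)) ≤ e1 (DK K) P n := by
  refine le_iInf fun A => ?_
  let _ := A.mΩ
  have _ := A.prob
  set V : Set (Fin n → ℝ) := ⋃ i : Fin K, univ.pi fun _ => (sup τ i)ᶜ with hV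
  have hVm : MeasurableSet V :=
    MeasurableSet.iUnion fun i => MeasurableSet.univ_pi fun _ => measurableSet_Ioo.compl
  have hG : ENNReal.ofReal (10 / 11) ≤ A.μ (A.X ⁻¹' V) := by
    rw [← Measure.map_apply A.measX hVm, A.law]
    exact prob_bound hK hv hτ0 hτ hτ2 hx
  have h1 := le_sum_upperInt A.μ (Finset.univ : Finset (Fin K → Bool))
    (fun s ω => A.err (fool τ L s) ω) (A.measX hVm) _ fun ω hω => by
      obtain ⟨i, hi⟩ := mem_iUnion.1 hω
      exact fool_sum hK hτ0 hτ hL A ω i fun j => hi j (mem_univ j)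
  have h2 : ∑ s : Fin K → Bool, upperInt A.μ (fun ω => A.err (fool τ L s) ω) ≤
      (Fintype.card (Fin K → Bool) : ℝ≥0∞) * A.error P := by
    rw [← Finset.card_univ, ← nsmul_eq_mul, ← Finset.sum_const]
    refine Finset.sum_le_sum fun s _ => ?_
    exact le_iSup₂_of_le (f := fun f (_ : f ∈ ball (DK K) P) => upperInt A.μ fun ω => A.err f ω)
      _ (fool_ball hK hA hτ0.le hτ hL hP hn s) le_rfl
  have h3 := h1.trans h2
  rw [mul_assoc] at h3
  have h4 := (ENNReal.mul_le_mul_iff_right (by simp) (by simp)).mp h3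
  refine le_trans ?_ h4
  refine le_trans (le_of_eq ?_) (mul_le_mul_right hG _)
  rw [← ENNReal.ofReal_mul (by positivity)]
  congr 1
  ring

theorem low (h : S_ADM) : S_LOW := by
  set K : ℕ := ⌈20 * Real.exp 1000⌉₊ with hKd
  have he1 : 1 ≤ Real.exp 1000 := Real.one_le_exp (by norm_num)
  have hK1 : 20 * Real.exp 1000 ≤ K := Nat.le_ceil _
  have hK2 : (K : ℝ) ≤ 21 * Real.exp 1000 := by
    have := Nat.ceil_lt_add_one (a := 20 * Real.exp 1000) (by positivity)
    linarith
  have hK : 1 ≤ K := by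
    have : (1 : ℝ) ≤ K := by linarith
    exact_mod_cast this
  have hK0 : (0 : ℝ) < K := by linarith
  clear_value K
  obtain ⟨hA, hv, -⟩ := h K hK
  refine ⟨K, hK, ?_⟩
  have hlim := Real.tendsto_one_add_div_pow_exp (-1000)
  have hev := hlim.eventually (lt_mem_nhds (show Real.exp (-1000) / 2 < Real.exp (-1000) by
    linarith [Real.exp_pos (-1000)]))
  filter_upwards [hev, eventually_ge_atTop (1000 * K), eventually_ge_atTop 2000] with n h1 h2 h3
  have hn1 : (1000 : ℝ) * K ≤ n := by exact_mod_cast h2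
  have hn2 : (2000 : ℝ) ≤ n := by exact_mod_cast h3
  have hn0 : (0 : ℝ) < n := by linarith
  set R : ℝ := (n : ℝ) ^ (999 / 1000 : ℝ) with hR
  have hR0 : 0 < R := Real.rpow_pos_of_pos hn0 _
  have hRP : R ^ 1000 = (n : ℝ) ^ 999 := by
    rw [hR, ← Real.rpow_natCast, ← Real.rpow_mul hn0.le, ← Real.rpow_natCast]
    norm_num
  clear_value R
  have hee : Real.exp 1000 * Real.exp (-1000) = 1 := by
    rw [← Real.exp_add]
    simp
  have hexp : Real.exp 1000 ≤ (68 / 25) ^ 1000 := by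
    rw [show (1000 : ℝ) = ((1000 : ℕ) : ℝ) by norm_num, ← Real.exp_one_pow]
    exact pow_le_pow_left₀ (Real.exp_pos 1).le (by linarith [Real.exp_one_lt_d9]) _
  have hnum : (84 : ℝ) * 1000 * ((68 / 25) ^ 1000 * (340 / 1000) ^ 1000) ≤ 1 := by
    rw [← mul_pow]
    have h4 : ((68 / 25 : ℝ) * (340 / 1000)) ^ 1000 ≤ ((68 / 25 : ℝ) * (340 / 1000)) ^ 200 :=
      pow_le_pow_of_le_one (by norm_num) (by norm_num) (by norm_num)
    have h5 : ((68 / 25 : ℝ) * (340 / 1000)) ^ 200 ≤ 1 / 84000 := by norm_num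
    have h6 := h4.trans h5
    generalize ((68 / 25 : ℝ) * (340 / 1000)) ^ 1000 = c at h6
    linarith
  have key := error_bound (n := n) hK hA hv (τ := 1000 / n) (L := 340 / 1000 * n / R)
    (by positivity) (by rw [div_mul_eq_mul_div, div_le_one hn0]; exact hn1)
    (by rw [div_le_iff₀ hn0]; linarith) ?_ (by positivity) (P := 1000) (by norm_num) ?_
  · refine le_trans ?_ (mul_le_mul_left key _)
    rw [← ENNReal.ofReal_mul (by positivity), ← ENNReal.ofReal_ofNat]
    apply ENNReal.ofReal_le_ofReal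
    have e : 340 / 1000 * n / R * (1000 / n) * (9 / 10) * R = 306 := by
      field_simp
      norm_num
    rw [e]
    norm_num
  · have e : (1 : ℝ) - 1000 / n = 1 + -1000 / n := by ring
    rw [e]
    nlinarith [mul_le_mul hK1 h1.le (by positivity) hK0.le]
  · have e : 4 * K * (1000 / n) * (340 / 1000 * n / R) ^ 1000 =
        4 * K * 1000 * (340 / 1000 : ℝ) ^ 1000 := by
      rw [div_pow, mul_pow, hRP, pow_succ (n : ℝ) 999]
      generalize (340 / 1000 : ℝ) ^ 1000 = c
      have : (n : ℝ) ^ 999 ≠ 0 := by positivity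
      generalize (n : ℝ) ^ 999 = m at this
      field_simp
    rw [e]
    refine le_trans ?_ hnum
    have hc : (0 : ℝ) ≤ (340 / 1000) ^ 1000 := by positivity
    generalize (340 / 1000 : ℝ) ^ 1000 = c at hc
    generalize (68 / 25 : ℝ) ^ 1000 = b at hexp
    nlinarith [mul_le_mul_of_nonneg_right (hK2.trans (by linarith : 21 * Real.exp 1000 ≤ 21 * b)) hc]

end Pool.Agent.H367Z.Iid
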